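import Mathlib

/-! A multilinear element of order 3 in `B_3(A_5(Z))`. -/

namespace Pool.Agent.Results.MP_426edc_al.Torsion

/-- The free associative ring on `n` generators. -/
abbrev A (n : ℕ) := FreeAlgebra ℤ (Fin n)

/-- The commutator. -/
def br {R : Type*} [Ring R] (a b : R) : R := a * b - b * a

/-- The lower central series: `L n 1 = A`, `L n (k+1) = [A, L n k]` (`L n 0` is not used). -/
def L (n : ℕ) : ℕ → AddSubgroup (A n)
  | 0 => ⊤
  | 1 => ⊤
  | k + 2 => AddSubgroup.closure {x | ∃ a, ∃ b ∈ L n (k + 1), x = br a b}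

/-- `B_l = L_l / L_(l+1)`. -/
abbrev B (n l : ℕ) := L n l ⧸ (L n (l + 1)).addSubgroupOf (L n l)

/-- The monomial of a word. -/
def mon {n : ℕ} (w : List (Fin n)) : A n := (w.map (FreeAlgebra.ι ℤ)).prod

/-- Span of the monomials in which `x_j` occurs exactly `m` times. -/
def Deg {n : ℕ} (j : Fin n) (m : ℕ) : AddSubgroup (A n) :=
  AddSubgroup.closure {x | ∃ w : List (Fin n), w.count j = m ∧ x = mon w}

/-- `T` in `B_l` has degree `m` with respect to `x_j`. -/
def HasDeg {n l : ℕ} (T : B n l) (j : Fin n) (m : ℕ) : Prop :=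
  ∃ t : L n l, (t : A n) ∈ Deg j m ∧ (QuotientAddGroup.mk t : B n l) = T

section aux

theorem id3 {R : Type*} [Ring R] (x0 x1 x2 x3 x4 : R) :
    br (x0 * br x1 (br x2 x3)) x4 =
      (1 : ℤ) • br x4 (br (x0 * x2) (x3 * x1))
      + (-1 : ℤ) • br x0 (br (x2 * x1 * x4) x3)
      + (-1 : ℤ) • br x2 (br (x0 * x1 * x3) x4)
      + (1 : ℤ) • br (x0 * x1 * x2) (br x3 x4)
      + (1 : ℤ) • br (x0 * x1) (br (x2 * x4) x3)
      + (-1 : ℤ) • br x2 (br x1 (x4 * x3 * x0))
      + (1 : ℤ) • br (x0 * x2) (br x1 (x4 * x3))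
      + (1 : ℤ) • br x0 (br (x2 * x4) (x3 * x1))
      + (-1 : ℤ) • br (x2 * x4) (br x0 (x3 * x1))
      + (-1 : ℤ) • br x1 (br (x3 * x2) (x4 * x0))
      + (-1 : ℤ) • br (x2 * x4 * x0) (br x1 x3)
      + (1 : ℤ) • br (x3 * x2) (br x1 (x4 * x0))
      + (1 : ℤ) • br x2 (br (x0 * x1) (x3 * x4))
      + (-1 : ℤ) • br (x4 * x0 * x1) (br x2 x3) := by
  simp only [br]; noncomm_ring

theorem id4 {R : Type*} [Ring R] (x0 x1 x2 x3 x4 : R) :
    (3 : ℤ) • br (x0 * br x1 (br x2 x3)) x4 =
      (-2 : ℤ) • br x0 (br (x3 * x4) (br x1 x2))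
      + (2 : ℤ) • br x2 (br x1 (br (x0 * x3) x4))
      + (-1 : ℤ) • br x2 (br x3 (br x1 (x4 * x0)))
      + (-2 : ℤ) • br (x0 * x3) (br x4 (br x1 x2))
      + (-2 : ℤ) • br (x4 * x1) (br x2 (br x0 x3))
      + (2 : ℤ) • br x2 (br x3 (br x0 (x1 * x4)))
      + (1 : ℤ) • br x3 (br (x4 * x2) (br x0 x1))
      + (2 : ℤ) • br x0 (br (x1 * x4) (br x2 x3))
      + (-2 : ℤ) • br (x2 * x0) (br x1 (br x3 x4))
      + (-1 : ℤ) • br (x2 * x0) (br x4 (br x1 x3))
      + (-2 : ℤ) • br x4 (br x2 (br (x0 * x1) x3))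
      + (2 : ℤ) • br x3 (br (x1 * x2) (br x0 x4))
      + (-1 : ℤ) • br x0 (br x4 (br x1 (x2 * x3)))
      + (-2 : ℤ) • br (x3 * x1) (br x2 (br x0 x4))
      + (1 : ℤ) • br (x1 * x4) (br x2 (br x0 x3))
      + (2 : ℤ) • br x1 (br x4 (br (x0 * x3) x2))
      + (-2 : ℤ) • br x4 (br x2 (br (x0 * x3) x1))
      + (-1 : ℤ) • br x3 (br (x1 * x4) (br x0 x2))
      + (3 : ℤ) • br x0 (br x3 (br (x2 * x1) x4))
      + (-1 : ℤ) • br x3 (br x0 (br x1 (x4 * x2)))
      + (3 : ℤ) • br x3 (br x0 (br (x1 * x4) x2))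
      + (-1 : ℤ) • br x2 (br x4 (br x1 (x3 * x0)))
      + (1 : ℤ) • br x2 (br x4 (br x0 (x1 * x3)))
      + (1 : ℤ) • br x0 (br x1 (br x3 (x4 * x2)))
      + (-2 : ℤ) • br (x4 * x2) (br x3 (br x0 x1))
      + (1 : ℤ) • br x4 (br x0 (br x1 (x3 * x2)))
      + (-1 : ℤ) • br x3 (br x2 (br (x0 * x4) x1))
      + (2 : ℤ) • br (x3 * x0) (br x1 (br x2 x4))
      + (3 : ℤ) • br (x3 * x0) (br x4 (br x1 x2))
      + (-1 : ℤ) • br x2 (br (x4 * x3) (br x0 x1))
      + (-2 : ℤ) • br (x1 * x2) (br x0 (br x3 x4))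
      + (2 : ℤ) • br x2 (br x1 (br (x0 * x4) x3))
      + (1 : ℤ) • br (x4 * x3) (br x1 (br x0 x2))
      + (1 : ℤ) • br x3 (br x4 (br (x0 * x1) x2))
      + (-1 : ℤ) • br x0 (br x1 (br x2 (x4 * x3)))
      + (-1 : ℤ) • br x1 (br (x4 * x3) (br x0 x2))
      + (-1 : ℤ) • br x1 (br (x0 * x4) (br x2 x3))
      + (-1 : ℤ) • br x1 (br (x2 * x3) (br x0 x4))
      + (-2 : ℤ) • br x0 (br x4 (br (x2 * x1) x3)) := by
  simp only [br]; noncomm_ring

theorem br_mem {n k : ℕ} (a : A n) {b : A n} (hb : b ∈ L n (k + 1)) : br a b ∈ L n (k + 2) :=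
  AddSubgroup.subset_closure ⟨a, b, hb, rfl⟩

theorem mem3 {n : ℕ} (z : ℤ) (a b c : A n) : z • br a (br b c) ∈ L n 3 :=
  zsmul_mem (br_mem a (br_mem b (AddSubgroup.mem_top c))) z

theorem mem4 {n : ℕ} (z : ℤ) (a b c d : A n) : z • br a (br b (br c d)) ∈ L n 4 :=
  zsmul_mem (br_mem a (br_mem b (br_mem c (AddSubgroup.mem_top d)))) z

theorem mon_append {n : ℕ} (u v : List (Fin n)) : mon (u ++ v) = mon u * mon v := by simp [mon]

def tt : A 5 := br (mon [0] * br (mon [1]) (br (mon [2]) (mon [3]))) (mon [4])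

theorem tt3 : tt ∈ L 5 3 := by
  rw [tt, id3]
  repeat' first | exact mem3 _ _ _ _ | apply add_mem

theorem tt4 : (3 : ℤ) • tt ∈ L 5 4 := by
  rw [tt, id4]
  repeat' first | exact mem4 _ _ _ _ _ | apply add_mem

theorem ttdeg (j : Fin 5) : tt ∈ Deg j 1 := by
  have h : ∀ w : List (Fin 5), w.count j = 1 → mon w ∈ Deg j 1 := fun w hw =>
    AddSubgroup.subset_closure ⟨w, hw, rfl⟩
  simp only [tt, br, mul_sub, sub_mul, ← mon_append]
  repeat' apply sub_mem
  all_goals (apply h; clear h; revert j; decide)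

def tbl (w : List (Fin 5)) : ℕ := (12650140831706913647030959169932331728664923467290128804936734829351850562359970343228022182945191213828753423419047614661575716675993732393878256450494398879487728755199453824961188298838364178250578956432058039985268864988999257829123489492127311873746772604869474708579200848337063023436113066845653555601619076201316352 / 4 ^ (w.foldl (fun s x => 5 * s + x.1) 0 / 5)) % 4

def f (w : List (Fin 5)) : ZMod 3 := if w.Perm [0, 1, 2, 3, 4] then (tbl w : ZMod 3) else 0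

def chk (a b c d : List (Fin 5)) : Bool :=
  (tbl (a ++ (b ++ (c ++ d))) + tbl (a ++ (d ++ c ++ b)) + tbl (b ++ (d ++ c) ++ a)
    + tbl (c ++ d ++ b ++ a)) % 3 ==
  (tbl (a ++ (b ++ (d ++ c))) + tbl (a ++ (c ++ d ++ b)) + tbl (b ++ (c ++ d) ++ a)
    + tbl (d ++ c ++ b ++ a)) % 3

theorem chk_all : ∀ w ∈ ([0, 1, 2, 3, 4] : List (Fin 5)).permutations', ∀ i ∈ List.range 6,
    ∀ j ∈ List.range 6, ∀ k ∈ List.range 6,
    chk (w.take i) ((w.drop i).take j) (((w.drop i).drop j).take k) (((w.drop i).drop j).drop k)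
      = true := by
  decide +kernel

theorem f_rel (a b c d : List (Fin 5)) :
    f (a ++ (b ++ (c ++ d))) + f (a ++ (d ++ c ++ b)) + f (b ++ (d ++ c) ++ a)
      + f (c ++ d ++ b ++ a) =
    f (a ++ (b ++ (d ++ c))) + f (a ++ (c ++ d ++ b)) + f (b ++ (c ++ d) ++ a)
      + f (d ++ c ++ b ++ a) := by
  have key : ∀ w : List (Fin 5), (∀ x, w.count x = a.count x + b.count x + c.count x + d.count x) →
      (w.Perm [0, 1, 2, 3, 4] ↔ (a ++ (b ++ (c ++ d))).Perm [0, 1, 2, 3, 4]) := by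
    intro w hw
    have : w.Perm (a ++ (b ++ (c ++ d))) := List.perm_iff_count.2 fun x => by
      rw [hw]; simp only [List.count_append]; omega
    exact ⟨fun h => this.symm.trans h, fun h => this.trans h⟩
  have k1 := key (a ++ (d ++ c ++ b)) (by intro x; simp only [List.count_append]; omega)
  have k2 := key (b ++ (d ++ c) ++ a) (by intro x; simp only [List.count_append]; omega)
  have k3 := key (c ++ d ++ b ++ a) (by intro x; simp only [List.count_append]; omega)
  have k4 := key (a ++ (b ++ (d ++ c))) (by intro x; simp only [List.count_append]; omega)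
  have k5 := key (a ++ (c ++ d ++ b)) (by intro x; simp only [List.count_append]; omega)
  have k6 := key (b ++ (c ++ d) ++ a) (by intro x; simp only [List.count_append]; omega)
  have k7 := key (d ++ c ++ b ++ a) (by intro x; simp only [List.count_append]; omega)
  simp only [f, k1, k2, k3, k4, k5, k6, k7]
  split_ifs with h
  · have hl := h.length_eq
    simp only [List.length_append, List.length_cons, List.length_nil] at hl
    have := chk_all _ (List.mem_permutations'.2 h) a.length (List.mem_range.2 (by omega))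
      b.length (List.mem_range.2 (by omega)) c.length (List.mem_range.2 (by omega))
    simp only [List.take_left', List.drop_left', chk, beq_iff_eq] at this
    have := (ZMod.natCast_eq_natCast_iff' _ _ 3).2 this
    simpa using this
  · rfl

noncomputable def phi : A 5 →ₗ[ℤ] ZMod 3 :=
  (FreeAlgebra.basisFreeMonoid ℤ (Fin 5)).constr ℤ fun w => f w.toList

theorem basis_eq (w : FreeMonoid (Fin 5)) :
    FreeAlgebra.basisFreeMonoid ℤ (Fin 5) w = mon w.toList := by
  simp [FreeAlgebra.basisFreeMonoid, FreeAlgebra.equivMonoidAlgebraFreeMonoid, mon,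
    FreeMonoid.lift_apply]
  exact one_smul _ _

theorem phi_mon (w : List (Fin 5)) : phi (mon w) = f w := by
  have := basis_eq (FreeMonoid.ofList w)
  rw [FreeMonoid.toList_ofList] at this
  rw [← this]
  exact Module.Basis.constr_basis (FreeAlgebra.basisFreeMonoid ℤ (Fin 5)) ℤ
    (fun w => f w.toList) (FreeMonoid.ofList w)

theorem ind (P : A 5 → Prop) (h0 : P 0) (hadd : ∀ x y, P x → P y → P (x + y))
    (hs : ∀ (z : ℤ) x, P x → P (z • x)) (hm : ∀ w, P (mon w)) (a : A 5) : P a := by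
  have := (FreeAlgebra.basisFreeMonoid ℤ (Fin 5)).mem_span a
  induction this using Submodule.span_induction with
  | mem x hx => obtain ⟨w, rfl⟩ := hx; rw [basis_eq]; exact hm _
  | zero => exact h0
  | add x y _ _ hx hy => exact hadd x y hx hy
  | smul z x _ hx => exact hs z x hx

theorem br_add_l (a b c : A 5) : br (a + b) c = br a c + br b c := by simp only [br]; noncomm_ring
theorem br_add_r (a b c : A 5) : br a (b + c) = br a b + br a c := by simp only [br]; noncomm_ring
theorem br_smul_l (z : ℤ) (a b : A 5) : br (z • a) b = z • br a b := by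
  simp only [br, smul_sub, smul_mul_assoc, mul_smul_comm]
theorem br_smul_r (z : ℤ) (a b : A 5) : br a (z • b) = z • br a b := by
  simp only [br, smul_sub, smul_mul_assoc, mul_smul_comm]
theorem br_neg_r (a b : A 5) : br a (-b) = -br a b := by simp only [br]; noncomm_ring
theorem br_zero_l (a : A 5) : br 0 a = 0 := by simp [br]
theorem br_zero_r (a : A 5) : br a 0 = 0 := by simp [br]

theorem phi4 (a b c d : A 5) : phi (br a (br b (br c d))) = 0 := by
  induction a using ind with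
  | h0 => simp [br_zero_l]
  | hadd x y hx hy => simp [br_add_l, hx, hy]
  | hs z x hx => rw [br_smul_l, map_smul, hx, smul_zero]
  | hm a =>
  induction b using ind with
  | h0 => simp [br_zero_l, br_zero_r]
  | hadd x y hx hy => simp [br_add_l, br_add_r, hx, hy]
  | hs z x hx => rw [br_smul_l, br_smul_r, map_smul, hx, smul_zero]
  | hm b =>
  induction c using ind with
  | h0 => simp [br_zero_l, br_zero_r]
  | hadd x y hx hy => simp [br_add_l, br_add_r, hx, hy]
  | hs z x hx => rw [br_smul_l, br_smul_r, br_smul_r, map_smul, hx, smul_zero]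
  | hm c =>
  induction d using ind with
  | h0 => simp [br_zero_r]
  | hadd x y hx hy => simp [br_add_r, hx, hy]
  | hs z x hx => rw [br_smul_r, br_smul_r, br_smul_r, map_smul, hx, smul_zero]
  | hm d =>
  simp only [br, mul_sub, sub_mul, ← mon_append, map_sub, phi_mon]
  linear_combination f_rel a b c d

theorem phiL {x : A 5} (hx : x ∈ L 5 4) : phi x = 0 := by
  have h2 : ∀ v ∈ L 5 2, ∀ a b, phi (br a (br b v)) = 0 := by
    intro v hv a b
    induction hv using AddSubgroup.closure_induction with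
    | mem x hx => obtain ⟨c, d, -, rfl⟩ := hx; exact phi4 a b c d
    | zero => simp [br_zero_r]
    | add x y _ _ hx hy => simp [br_add_r, hx, hy]
    | neg x _ hx => simp [br_neg_r, hx]
  have h3 : ∀ v ∈ L 5 3, ∀ a, phi (br a v) = 0 := by
    intro v hv a
    induction hv using AddSubgroup.closure_induction with
    | mem x hx => obtain ⟨c, d, hd, rfl⟩ := hx; exact h2 d hd a c
    | zero => simp [br_zero_r]
    | add x y _ _ hx hy => simp [br_add_r, hx, hy]
    | neg x _ hx => simp [br_neg_r, hx]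
  induction hx using AddSubgroup.closure_induction with
  | mem x hx => obtain ⟨c, d, hd, rfl⟩ := hx; exact h3 d hd c
  | zero => simp
  | add x y _ _ hx hy => simp [hx, hy]
  | neg x _ hx => simp [hx]

theorem phi_tt : phi tt ≠ 0 := by
  simp only [tt, br, mul_sub, sub_mul, ← mon_append, map_sub, phi_mon]
  decide +kernel

end aux

theorem result :
    (∃ T : B 5 3, addOrderOf T = 3 ∧ ∀ j, HasDeg T j 1) ∧
    ¬ ∀ (n l : ℕ), 1 ≤ n → 1 ≤ l → ∀ (j : Fin n) (m : ℕ) (T : B n l), T ≠ 0 → IsOfFinAddOrder T →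
      HasDeg T j m → addOrderOf T ∣ m := by
  have h0 : (QuotientAddGroup.mk (⟨tt, tt3⟩ : L 5 3) : B 5 3) ≠ 0 := by
    rw [Ne, QuotientAddGroup.eq_zero_iff, AddSubgroup.mem_addSubgroupOf]
    exact fun h => phi_tt (phiL h)
  have h3 : 3 • (QuotientAddGroup.mk (⟨tt, tt3⟩ : L 5 3) : B 5 3) = 0 := by
    rw [← QuotientAddGroup.mk_nsmul, QuotientAddGroup.eq_zero_iff, AddSubgroup.mem_addSubgroupOf]
    exact_mod_cast tt4
  have ho := addOrderOf_eq_prime (hp := ⟨Nat.prime_three⟩) h3 h0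
  refine ⟨⟨_, ho, fun j => ⟨_, ttdeg j, rfl⟩⟩, fun h => ?_⟩
  have := h 5 3 (by norm_num) (by norm_num) 0 1 _ h0
    (isOfFinAddOrder_iff_nsmul_eq_zero.2 ⟨3, by norm_num, h3⟩) ⟨_, ttdeg 0, rfl⟩
  rw [ho] at this
  norm_num at this

end Pool.Agent.Results.MP_426edc_al.Torsion
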